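import Pool.Agent.H83.V.FV

/-!
Theorem V, row VWN: windows (after row WIN of project LF, helper11).
-/

set_option autoImplicit false

open MeasureTheory ProbabilityTheory Filter Topology Finset
open scoped Nat ENNReal

namespace Pool.Agent.H67.V

open Pool.Agent.H83.V

/-- one window, for functions with values in `[0, 1]` -/
theorem win_step (f : ℕ → ℕ → ℝ) (hf0 : ∀ K n, 0 ≤ f K n) (hf1 : ∀ K n, f K n ≤ 1) (ε : ℝ)
    (hε : 0 < ε)
    (hf : ∀ K₀ : ℕ, ∃ K, K₀ ≤ K ∧ ∀ C : ℕ, ∃ x y : ℕ, 0 < x ∧ C * x ≤ y ∧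
      ε * Real.log ((y : ℝ) / x) < ∑ n ∈ Icc x y, f K n / n) (j B : ℕ) :
    ∃ H x y : ℕ, j < H ∧ 0 < x ∧ x ≤ y ∧ B < x ∧ (j : ℝ) * H ≤ Real.log ((y : ℝ) / x) ∧
      9 / 10 * ε * Real.log ((y : ℝ) / x) ≤ ∑ n ∈ Icc x y, f H n / n := by
  obtain ⟨H, hH, hC⟩ := hf (j + 1)
  obtain ⟨C, hC1⟩ := exists_nat_ge (((B : ℝ) + 1) * Real.exp (j * H) + Real.exp (10 * B / ε))
  have e1 : 0 < Real.exp (10 * B / ε) := Real.exp_pos _
  have e2 : 1 ≤ Real.exp ((j : ℝ) * H) := Real.one_le_exp (by positivity)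
  have hB0 : (0 : ℝ) ≤ B := Nat.cast_nonneg B
  have hCB : ((B : ℝ) + 1) * Real.exp (j * H) ≤ C := by linarith
  have hCe : Real.exp (10 * B / ε) ≤ C := by
    have : 0 ≤ ((B : ℝ) + 1) * Real.exp (j * H) := by positivity
    linarith
  have hCB' : (B : ℝ) + 1 ≤ C := by
    have : (B : ℝ) + 1 ≤ ((B : ℝ) + 1) * Real.exp (j * H) := le_mul_of_one_le_right (by linarith) e2
    linarith
  have hCBn : B + 1 ≤ C := by exact_mod_cast hCB'
  obtain ⟨x₀, y, hx0, hxy, hs⟩ := hC C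
  have hx0' : (1 : ℝ) ≤ x₀ := by exact_mod_cast hx0
  have hxy' : (C : ℝ) * x₀ ≤ y := by exact_mod_cast hxy
  have hC0 : (0 : ℝ) < C := by linarith
  have hx : max x₀ (B + 1) ≤ y := by
    refine max_le ?_ ?_
    · exact le_trans (Nat.le_mul_of_pos_left x₀ (by omega)) hxy
    · exact le_trans (le_trans hCBn (Nat.le_mul_of_pos_right C hx0)) hxy
  have hyp : (0 : ℝ) < y := by
    have : (0 : ℝ) < (C : ℝ) * x₀ := by positivity
    linarith
  have hxpos : (0 : ℝ) < (max x₀ (B + 1) : ℕ) := by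
    have : 0 < max x₀ (B + 1) := lt_of_lt_of_le hx0 (le_max_left _ _)
    exact_mod_cast this
  have hxle : ((max x₀ (B + 1) : ℕ) : ℝ) ≤ ((B : ℝ) + 1) * x₀ := by
    have : max x₀ (B + 1) ≤ (B + 1) * x₀ := by
      refine max_le ?_ ?_
      · exact Nat.le_mul_of_pos_left x₀ (by omega)
      · exact Nat.le_mul_of_pos_right (B + 1) hx0
    exact_mod_cast this
  have hlog1 : (j : ℝ) * H ≤ Real.log ((y : ℝ) / (max x₀ (B + 1) : ℕ)) := by
    rw [Real.le_log_iff_exp_le (by positivity), le_div_iff₀ hxpos]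
    calc Real.exp (j * H) * ((max x₀ (B + 1) : ℕ) : ℝ)
        ≤ Real.exp (j * H) * (((B : ℝ) + 1) * x₀) :=
          mul_le_mul_of_nonneg_left hxle (Real.exp_pos _).le
      _ = (((B : ℝ) + 1) * Real.exp (j * H)) * x₀ := by ring
      _ ≤ C * x₀ := mul_le_mul_of_nonneg_right hCB (by linarith)
      _ ≤ y := hxy'
  have hlog2 : 10 * B / ε ≤ Real.log ((y : ℝ) / x₀) := by
    rw [Real.le_log_iff_exp_le (by positivity), le_div_iff₀ (by linarith)]
    calc Real.exp (10 * B / ε) * (x₀ : ℝ) ≤ C * x₀ :=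
          mul_le_mul_of_nonneg_right hCe (by linarith)
      _ ≤ y := hxy'
  have hlog3 : Real.log ((y : ℝ) / (max x₀ (B + 1) : ℕ)) ≤ Real.log ((y : ℝ) / x₀) := by
    apply Real.log_le_log (by positivity)
    apply div_le_div_of_nonneg_left hyp.le (by linarith)
    exact_mod_cast le_max_left x₀ (B + 1)
  -- the sum
  have hrem : ∑ n ∈ Icc x₀ y, f H n / n ≤
      (B : ℝ) + ∑ n ∈ Icc (max x₀ (B + 1)) y, f H n / n := by
    have hsub : Icc x₀ y ⊆ Icc 1 B ∪ Icc (max x₀ (B + 1)) y := by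
      intro n hn
      rw [Finset.mem_Icc] at hn
      rw [Finset.mem_union, Finset.mem_Icc, Finset.mem_Icc]
      by_cases h : n ≤ B
      · left; exact ⟨by omega, h⟩
      · right; exact ⟨max_le hn.1 (by omega), hn.2⟩
    have hnn : ∀ n : ℕ, 0 ≤ f H n / n := fun n => div_nonneg (hf0 H n) (Nat.cast_nonneg n)
    have hdis : Disjoint (Icc 1 B) (Icc (max x₀ (B + 1)) y) := by
      rw [Finset.disjoint_left]
      intro n hn hn'
      rw [Finset.mem_Icc] at hn hn'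
      have := le_trans (le_max_right x₀ (B + 1)) hn'.1
      omega
    calc ∑ n ∈ Icc x₀ y, f H n / n
        ≤ ∑ n ∈ Icc 1 B ∪ Icc (max x₀ (B + 1)) y, f H n / n :=
          Finset.sum_le_sum_of_subset_of_nonneg hsub (fun n _ _ => hnn n)
      _ = ∑ n ∈ Icc 1 B, f H n / n + ∑ n ∈ Icc (max x₀ (B + 1)) y, f H n / n :=
          Finset.sum_union hdis
      _ ≤ (B : ℝ) + ∑ n ∈ Icc (max x₀ (B + 1)) y, f H n / n := by
          have : ∑ n ∈ Icc 1 B, f H n / n ≤ ∑ n ∈ Icc 1 B, (1 : ℝ) := by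
            apply Finset.sum_le_sum
            intro n hn
            rw [Finset.mem_Icc] at hn
            have hn1 : (1 : ℝ) ≤ n := by exact_mod_cast hn.1
            rw [div_le_one (by linarith)]
            exact le_trans (hf1 H n) hn1
          have h2 : ∑ n ∈ Icc 1 B, (1 : ℝ) = B := by
            rw [Finset.sum_const, Nat.card_Icc, nsmul_eq_mul, mul_one]
            norm_num
          linarith
  refine ⟨H, max x₀ (B + 1), y, by omega, lt_of_lt_of_le hx0 (le_max_left _ _), hx,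
    lt_of_lt_of_le (Nat.lt_succ_self B) (le_max_right _ _), hlog1, ?_⟩
  have h3 : (B : ℝ) ≤ ε / 10 * Real.log ((y : ℝ) / x₀) := by
    have := mul_le_mul_of_nonneg_left hlog2 (by positivity : (0 : ℝ) ≤ ε / 10)
    have h4 : ε / 10 * (10 * B / ε) = B := by field_simp
    linarith
  have h5 : 9 / 10 * ε * Real.log ((y : ℝ) / (max x₀ (B + 1) : ℕ)) ≤
      9 / 10 * ε * Real.log ((y : ℝ) / x₀) :=
    mul_le_mul_of_nonneg_left hlog3 (by positivity)
  have h6 : ε * Real.log ((y : ℝ) / x₀) =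
    9 / 10 * ε * Real.log ((y : ℝ) / x₀) + ε / 10 * Real.log ((y : ℝ) / x₀) := by ring
  linarith

open Classical in
/-- VWN: disjoint long windows on which the statement fails. -/
theorem pf_VWN : T_VWN := by
  intro z m I ρ hρ hn
  unfold ThmV at hn
  push Not at hn
  set f : ℕ → ℕ → ℝ := fun K n => if Gn z m I (ρ ^ 4 / 10 ^ 15) K n then (1 : ℝ) else 0 with hf
  have hsum : ∀ K x y : ℕ, ∑ n ∈ (Icc x y).filter (fun n => Gn z m I (ρ ^ 4 / 10 ^ 15) K n),
      (1 : ℝ) / n = ∑ n ∈ Icc x y, f K n / n := by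
    intro K x y
    rw [Finset.sum_filter]
    refine Finset.sum_congr rfl fun n _ => ?_
    simp only [hf]
    split_ifs <;> simp
  have hf0 : ∀ K n, 0 ≤ f K n := by
    intro K n
    simp only [hf]
    split_ifs <;> norm_num
  have hf1 : ∀ K n, f K n ≤ 1 := by
    intro K n
    simp only [hf]
    split_ifs <;> norm_num
  have hn' : ∀ K₀ : ℕ, ∃ K, K₀ ≤ K ∧ ∀ C : ℕ, ∃ x y : ℕ, 0 < x ∧ C * x ≤ y ∧
      ρ * Real.log ((y : ℝ) / x) < ∑ n ∈ Icc x y, f K n / n := by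
    intro K₀
    obtain ⟨K, h1, h2⟩ := hn K₀
    refine ⟨K, h1, fun C => ?_⟩
    obtain ⟨x, y, h3, h4, h5⟩ := h2 C
    refine ⟨x, y, h3, h4, ?_⟩
    rw [← hsum]
    exact h5
  have st := win_step f hf0 hf1 ρ hρ hn'
  choose H x y h1 h2 h3 h4 h5 h6 using st
  let Y : ℕ → ℕ := fun j => Nat.rec (y 0 0) (fun k r => y (k + 1) r) j
  let b : ℕ → ℕ := fun j => Nat.rec 0 (fun k _ => Y k) j
  have hY : ∀ j, Y j = y j (b j) := by
    intro j
    cases j with
    | zero => rfl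
    | succ k => rfl
  refine ⟨fun j => H j (b j), fun j => x j (b j), fun j => y j (b j),
    fun j => h1 _ _, fun j => ⟨h2 _ _, h3 _ _, ?_⟩, fun j => h5 _ _, fun j => ?_⟩
  · have : b (j + 1) = y j (b j) := by
      rw [← hY j]
    show y j (b j) < x (j + 1) (b (j + 1))
    rw [this]
    exact h4 _ _
  · rw [hsum]
    exact h6 _ _

end Pool.Agent.H67.V
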