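import Pool.Agent.H83.V.T1
import Pool.Agent.H46.LF.CPL

/-!
Theorem V, row CPV: a coupling of a product measure with itself.
-/

set_option autoImplicit false

open Finset

namespace Pool.Agent.H67.V

open Pool.Agent.H83.V
open Pool.Agent.H46.LF (cpl_S1 cplR cplR_nonneg cplR_left cplR_right cpl_S3)

/-- exchange of sums -/
theorem cpv_swap {A ι : Type} [Fintype A] (W : A → A → ℝ) (I : Finset ι) (f : ι → A → A → ℝ) :
    ∑ v, ∑ v', W v v' * (∑ i ∈ I, f i v v') = ∑ i ∈ I, ∑ v, ∑ v', W v v' * f i v v' := by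
  rw [Finset.sum_comm (s := I)]
  refine Finset.sum_congr rfl fun v _ => ?_
  rw [Finset.sum_comm (s := I)]
  refine Finset.sum_congr rfl fun v' _ => ?_
  rw [Finset.mul_sum]

theorem pf_CPV (h3 : T_PWV) : T_CPV := by
  classical
  intro q m I w th B _ hC h0 h1 hw hs
  set p : Fin m → ℝ := fun i => th * (1 - ∑ b, w i b ^ 2) with hp
  set W : (Fin m → Fin q) → (Fin m → Fin q) → ℝ :=
    fun v v' => ∏ i, cplR w th i (v i) (v' i) with hW
  have hW0 : ∀ v v', 0 ≤ W v v' := fun v v' =>
    Finset.prod_nonneg fun i _ => cplR_nonneg w th h0 h1 hw i _ _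
  set x : Fin m → (Fin m → Fin q) → (Fin m → Fin q) → ℝ :=
    fun i v v' => if v i ≠ v' i then (1 : ℝ) else 0 with hx
  -- the moments
  have hm1 : ∀ i, ∑ v, ∑ v', W v v' * x i v v' = p i := by
    intro i
    have := cpl_S3 w th hs ({i} : Finset (Fin m))
    simpa [hW, hx, hp] using this
  have hm2 : ∀ i j, i ≠ j → ∑ v, ∑ v', W v v' * (x i v v' * x j v v') = p i * p j := by
    intro i j hij
    have := cpl_S3 w th hs ({i, j} : Finset (Fin m))
    rw [Finset.prod_pair hij] at this
    simp_rw [Finset.prod_pair hij] at this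
    exact this
  -- the right-hand side
  have hr1 : ∑ v, ∑ v', W v v' * (if v ∈ B then (1 : ℝ) else 0) =
      ∑ v : Fin m → Fin q, if v ∈ B then ∏ i, w i (v i) else 0 := by
    refine Finset.sum_congr rfl fun v _ => ?_
    rw [← Finset.sum_mul]
    have : ∑ v', W v v' = ∏ i, w i (v i) := by
      rw [hW]
      rw [cpl_S1 (fun i b' => cplR w th i (v i) b')]
      exact Finset.prod_congr rfl fun i _ => cplR_left w th hs i (v i)
    rw [this]
    split_ifs <;> simp
  have hr2 : ∑ v, ∑ v', W v v' * (if v' ∈ B then (1 : ℝ) else 0) =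
      ∑ v : Fin m → Fin q, if v ∈ B then ∏ i, w i (v i) else 0 := by
    rw [Finset.sum_comm]
    refine Finset.sum_congr rfl fun v _ => ?_
    rw [← Finset.sum_mul]
    have : ∑ v', W v' v = ∏ i, w i (v i) := by
      rw [hW]
      rw [cpl_S1 (fun i b' => cplR w th i b' (v i))]
      exact Finset.prod_congr rfl fun i _ => cplR_right w th hs i (v i)
    rw [this]
    split_ifs <;> simp
  -- the pointwise inequality
  have hpt : ∀ v v' : Fin m → Fin q,
      ∑ i ∈ I, x i v v' - ∑ i ∈ I, ∑ j ∈ univ.erase i, x i v v' * x j v v' ≤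
      (if v ∈ B then (1 : ℝ) else 0) + (if v' ∈ B then (1 : ℝ) else 0) := by
    intro v v'
    have h := h3 q m I v v' B hC
    have hD : ((I.filter fun i => v i ≠ v' i).card : ℝ) = ∑ i ∈ I, x i v v' := by
      rw [Finset.card_filter]
      push_cast
      rfl
    have hE : ((univ.filter fun i : Fin m => v i ≠ v' i).card : ℝ) = ∑ i, x i v v' := by
      rw [Finset.card_filter]
      push_cast
      rfl
    have hxx : ∀ i, x i v v' * x i v v' = x i v v' := by
      intro i
      simp only [hx]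
      split_ifs <;> norm_num
    have hq : ∑ i ∈ I, ∑ j ∈ univ.erase i, x i v v' * x j v v' =
        (∑ i ∈ I, x i v v') * ((∑ i, x i v v') - 1) := by
      rw [Finset.sum_mul]
      refine Finset.sum_congr rfl fun i _ => ?_
      rw [← Finset.mul_sum]
      have h5 := Finset.add_sum_erase univ (fun j => x j v v') (Finset.mem_univ i)
      have h6 : ∑ j ∈ univ.erase i, x j v v' = (∑ j, x j v v') - x i v v' := by linarith
      rw [h6, mul_sub, hxx, mul_sub, mul_one]
    rw [hq, ← hD, ← hE]
    refine le_trans (le_of_eq ?_) (le_trans h (le_of_eq ?_))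
    · simp only [ne_eq]
    · by_cases a : v ∈ B <;> by_cases b : v' ∈ B <;> simp [a, b]
  -- sum up
  have hsum := Finset.sum_le_sum fun v (_ : v ∈ (univ : Finset (Fin m → Fin q))) =>
    Finset.sum_le_sum fun v' (_ : v' ∈ (univ : Finset (Fin m → Fin q))) =>
      mul_le_mul_of_nonneg_left (hpt v v') (hW0 v v')
  have hR : ∑ v, ∑ v', W v v' * ((if v ∈ B then (1 : ℝ) else 0) + (if v' ∈ B then 1 else 0)) =
      2 * ∑ v : Fin m → Fin q, if v ∈ B then ∏ i, w i (v i) else 0 := by
    simp_rw [mul_add, Finset.sum_add_distrib]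
    rw [hr1, hr2]
    ring
  have hL : ∑ v, ∑ v', W v v' *
      (∑ i ∈ I, x i v v' - ∑ i ∈ I, ∑ j ∈ univ.erase i, x i v v' * x j v v') =
      ∑ i ∈ I, p i - ∑ i ∈ I, ∑ j ∈ univ.erase i, p i * p j := by
    simp_rw [mul_sub, Finset.sum_sub_distrib]
    rw [cpv_swap W I x, Finset.sum_congr rfl fun i _ => hm1 i]
    rw [cpv_swap W I (fun i v v' => ∑ j ∈ univ.erase i, x i v v' * x j v v')]
    congr 1
    refine Finset.sum_congr rfl fun i _ => ?_
    rw [cpv_swap W (univ.erase i) (fun j v v' => x i v v' * x j v v')]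
    refine Finset.sum_congr rfl fun j hj => ?_
    exact hm2 i j (Finset.ne_of_mem_erase hj).symm
  rw [hL, hR] at hsum
  exact hsum

end Pool.Agent.H67.V
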